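import Mathlib

set_option autoImplicit false

namespace Pool.Agent.Results.MP_aa43e9_co.InducedC5OrBull

open Finset

/-- A red/blue colouring of the pairs of distinct elements of `V` (red = adjacent, blue =
nonadjacent and distinct). -/
structure TC {V : Type*} (R B : V → V → Prop) : Prop where
  symmR : ∀ {x y}, R x y → R y x
  symmB : ∀ {x y}, B x y → B y x
  excl : ∀ {x y}, R x y → B x y → False
  irrR : ∀ {x}, R x x → False
  irrB : ∀ {x}, B x x → False
  total : ∀ {x y}, x ≠ y → R x y ∨ B x y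

theorem TC.swap {V : Type*} {R B : V → V → Prop} (h : TC R B) : TC B R where
  symmR := h.symmB
  symmB := h.symmR
  excl := fun a b => h.excl b a
  irrR := h.irrB
  irrB := h.irrR
  total := fun hxy => (h.total hxy).symm

/-- no induced 5-cycle -/
def NoC5 {V : Type*} (R B : V → V → Prop) : Prop :=
  ∀ a b c d e, R a b → R b c → R c d → R d e → R e a →
    B a c → B a d → B b d → B b e → B c e → False

/-- no induced bull -/
def NoBull {V : Type*} (R B : V → V → Prop) : Prop :=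
  ∀ a b c d e, R a b → R b c → R c a → R a d → R b e →
    B d b → B d c → B d e → B e a → B e c → False

theorem NoC5.swap {V : Type*} {R B : V → V → Prop} (h : TC R B) (hc : NoC5 R B) :
    NoC5 B R := by
  intro a b c d e h1 h2 h3 h4 h5 g1 g2 g3 g4 g5
  exact hc a c e b d g1 g5 (h.symmR g4) g3 (h.symmR g2) (h.symmB h5) h1 (h.symmB h2) h3
    (h.symmB h4)

theorem NoBull.swap {V : Type*} {R B : V → V → Prop} (h : TC R B) (hc : NoBull R B) :
    NoBull B R := by
  intro a b c d e h1 h2 h3 h4 h5 g1 g2 g3 g4 g5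
  exact hc d e c b a g3 g5 (h.symmR g2) g1 g4 h5 h2 (h.symmB h1) h4 (h.symmB h3)

def Conn {V : Type*} [DecidableEq V] (R : V → V → Prop) (K : Finset V) : Prop :=
  ∀ X ⊆ K, X.Nonempty → (K \ X).Nonempty → ∃ x ∈ X, ∃ y ∈ K \ X, R x y

def P4 {V : Type*} (R B : V → V → Prop) (a b c d : V) : Prop :=
  R a b ∧ R b c ∧ R c d ∧ B a c ∧ B a d ∧ B b d

theorem P4.swap {V : Type*} {R B : V → V → Prop} (h : TC R B) {a b c d : V}
    (p : P4 R B a b c d) : P4 B R b d a c := by
  obtain ⟨h1, h2, h3, h4, h5, h6⟩ := p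
  exact ⟨h6, h.symmB h5, h4, h.symmR h1, h2, h.symmR h3⟩

section
variable {V : Type*} [DecidableEq V] {R B : V → V → Prop}

theorem Conn.insert {K : Finset V} (hs : ∀ {x y}, R x y → R y x) (hK : Conn R K) {a : V}
    (ha : a ∉ K) (hR : ∃ k ∈ K, R a k) : Conn R (insert a K) := by
  intro X hX hXne hXc
  obtain ⟨k, hk, hak⟩ := hR
  by_cases h1 : (X ∩ K).Nonempty
  · by_cases h2 : (K \ (X ∩ K)).Nonempty
    · obtain ⟨x, hx, y, hy, hxy⟩ := hK (X ∩ K) inter_subset_right h1 h2
      simp only [mem_inter, mem_sdiff] at hx hy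
      exact ⟨x, hx.1, y, by simp only [mem_sdiff, mem_insert]; tauto, hxy⟩
    · have hKX : ∀ y ∈ K, y ∈ X := by
        intro y hy
        by_contra hyX
        exact h2 ⟨y, by simp only [mem_sdiff, mem_inter]; tauto⟩
      have haX : a ∉ X := by
        intro haX
        obtain ⟨y, hy⟩ := hXc
        simp only [mem_sdiff, mem_insert] at hy
        rcases hy with ⟨rfl | hy, hyX⟩
        · exact hyX haX
        · exact hyX (hKX y hy)
      exact ⟨k, hKX k hk, a, by simp only [mem_sdiff, mem_insert]; tauto, hs hak⟩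
  · have hXa : ∀ x ∈ X, x = a := by
      intro x hx
      have := hX hx
      simp only [mem_insert] at this
      rcases this with h | h
      · exact h
      · exact absurd ⟨x, mem_inter.2 ⟨hx, h⟩⟩ h1
    obtain ⟨x, hx⟩ := hXne
    have hxa := hXa x hx
    subst hxa
    refine ⟨x, hx, k, ?_, hak⟩
    simp only [mem_sdiff, mem_insert]
    refine ⟨Or.inr hk, fun hkX => ?_⟩
    have := hXa k hkX
    subst this
    exact ha hk

open Classical in
/-- The nestedness lemma. -/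
theorem nested (h : TC R B) {K A Q : Finset V} (hR : Conn R K) (hB : Conn B K)
    (hAK : A ⊆ K) (hQK : Q ⊆ K) (hAQ : Disjoint A Q)
    (hH : ∀ k ∈ K, k ∉ A → k ∉ Q → (∀ a ∈ A, B k a) ∧ (∀ q ∈ Q, R k q))
    (hom1 : ∀ q ∈ Q, ∀ a ∈ A, ∀ a' ∈ A, R a a' → R q a → R q a')
    (hom2 : ∀ a ∈ A, ∀ q ∈ Q, ∀ q' ∈ Q, B q q' → R a q → R a q')
    (hA : A.Nonempty) (hQ : Q.Nonempty) :
    ∃ a ∈ A, ∃ a' ∈ A, ∃ q ∈ Q, ∃ q' ∈ Q,
      R a q ∧ R a' q' ∧ B a q' ∧ B a' q ∧ B a a' ∧ R q q' := by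
  have hdis : ∀ {x}, x ∈ A → x ∈ Q → False := fun ha hq =>
    (Finset.disjoint_left.1 hAQ) ha hq
  obtain ⟨a, haA, hmin⟩ := Finset.exists_min_image A (fun a => (Q.filter (R a)).card) hA
  have h1 : ∃ q ∈ Q, R a q := by
    by_contra hcon
    push Not at hcon
    obtain ⟨x, hx, y, hy, hxy⟩ := hR (A.filter (fun a' => ∀ q ∈ Q, ¬ R a' q))
      (fun x hx => hAK (mem_filter.1 hx).1) ⟨a, mem_filter.2 ⟨haA, hcon⟩⟩
      (by
        obtain ⟨q, hq⟩ := hQ
        refine ⟨q, mem_sdiff.2 ⟨hQK hq, fun hq' => hdis (mem_filter.1 hq').1 hq⟩⟩)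
    obtain ⟨hxA, hxQ⟩ := mem_filter.1 hx
    obtain ⟨hyK, hyn⟩ := mem_sdiff.1 hy
    by_cases hyQ : y ∈ Q
    · exact hxQ y hyQ hxy
    · by_cases hyA : y ∈ A
      · apply hyn
        refine mem_filter.2 ⟨hyA, fun q hq hyq => ?_⟩
        exact hxQ q hq (h.symmR (hom1 q hq y hyA x hxA (h.symmR hxy) (h.symmR hyq)))
      · exact h.excl (h.symmR hxy) ((hH y hyK hyA hyQ).1 x hxA)
  obtain ⟨q, hqQ, haq⟩ := h1
  have h2 : ∃ a' ∈ A, B a' q := by
    by_contra hcon
    push Not at hcon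
    have hcon' : ∀ a' ∈ A, R a' q := by
      intro a' ha'
      rcases h.total (x := a') (y := q) (fun e => hdis ha' (e ▸ hqQ)) with h' | h'
      · exact h'
      · exact absurd h' (hcon a' ha')
    obtain ⟨x, hx, y, hy, hxy⟩ := hB (Q.filter (fun q' => ∀ a' ∈ A, R a' q'))
      (fun x hx => hQK (mem_filter.1 hx).1) ⟨q, mem_filter.2 ⟨hqQ, hcon'⟩⟩
      ⟨a, mem_sdiff.2 ⟨hAK haA, fun hq' => hdis haA (mem_filter.1 hq').1⟩⟩
    obtain ⟨hxQ, hxA⟩ := mem_filter.1 hx
    obtain ⟨hyK, hyn⟩ := mem_sdiff.1 hy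
    by_cases hyA : y ∈ A
    · exact h.excl (hxA y hyA) (h.symmB hxy)
    · by_cases hyQ : y ∈ Q
      · apply hyn
        refine mem_filter.2 ⟨hyQ, fun a' ha' => ?_⟩
        exact hom2 a' ha' x hxQ y hyQ hxy (hxA a' ha')
      · exact h.excl (h.symmR ((hH y hyK hyA hyQ).2 x hxQ)) hxy
  obtain ⟨a', ha'A, ha'q⟩ := h2
  have h3 : ∃ q' ∈ Q, R a' q' ∧ ¬ R a q' := by
    by_contra hcon
    push Not at hcon
    have hss : Q.filter (R a') ⊂ Q.filter (R a) := by
      refine Finset.ssubset_iff_subset_ne.2 ⟨?_, ?_⟩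
      · intro q' hq'
        obtain ⟨hq'1, hq'2⟩ := mem_filter.1 hq'
        exact mem_filter.2 ⟨hq'1, hcon q' hq'1 hq'2⟩
      · intro e
        have : q ∈ Q.filter (R a') := e ▸ mem_filter.2 ⟨hqQ, haq⟩
        exact h.excl (mem_filter.1 this).2 ha'q
    exact absurd (hmin a' ha'A) (not_le.2 (Finset.card_lt_card hss))
  obtain ⟨q', hq'Q, ha'q', hnaq'⟩ := h3
  have haq' : B a q' := by
    rcases h.total (x := a) (y := q') (fun e => hdis haA (e ▸ hq'Q)) with h' | h'
    · exact absurd h' hnaq'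
    · exact h'
  refine ⟨a, haA, a', ha'A, q, hqQ, q', hq'Q, haq, ha'q', haq', ha'q, ?_, ?_⟩
  · rcases h.total (x := a) (y := a') (fun e => h.excl haq (e ▸ ha'q)) with h' | h'
    · exact absurd (hom1 q hqQ a haA a' ha'A h' (h.symmR haq)) (fun h'' => h.excl (h.symmR h'') ha'q)
    · exact h'
  · rcases h.total (x := q) (y := q') (fun e => h.excl haq (e ▸ haq')) with h' | h'
    · exact h'
    · exact absurd (hom2 a haA q hqQ q' hq'Q h' haq) hnaq'

/-- Claim A. -/
theorem claimA (h : TC R B) (h5 : NoC5 R B) (hb : NoBull R B) {K : Finset V}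
    (hR : Conn R K) (hB : Conn B K) {v z a : V} (hv : ∀ k ∈ K, B v k) (hz : ∀ k ∈ K, R z k)
    (hav : R a v) (haz : B a z) (h1 : ∃ k ∈ K, R a k) (h2 : ∃ k ∈ K, B a k) : False := by
  classical
  have haK : a ∉ K := fun haK => h.excl (h.symmR hav) (hv a haK)
  obtain ⟨a1, ha1, a2, ha2, q1, hq1, q2, hq2, e1, e2, e3, e4, e5, e6⟩ :=
    nested h (K := K) (A := K.filter (fun k => R a k)) (Q := K.filter (fun k => B a k)) hR hB
      (filter_subset _ _) (filter_subset _ _)
      (by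
        rw [Finset.disjoint_left]
        intro x hx hx'
        exact h.excl (mem_filter.1 hx).2 (mem_filter.1 hx').2)
      (by
        intro k hk hk1 hk2
        exfalso
        have hak : a ≠ k := fun e => haK (e ▸ hk)
        rcases h.total hak with h' | h'
        · exact hk1 (mem_filter.2 ⟨hk, h'⟩)
        · exact hk2 (mem_filter.2 ⟨hk, h'⟩))
      (by
        intro q hq x hx y hy hxy hqx
        obtain ⟨hqK, haq⟩ := mem_filter.1 hq
        obtain ⟨hxK, hax⟩ := mem_filter.1 hx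
        obtain ⟨hyK, hay⟩ := mem_filter.1 hy
        have hqy : q ≠ y := fun e => h.excl hay (e ▸ haq)
        rcases h.total hqy with h' | h'
        · exact h'
        · exact (hb a x y v q hax hxy (h.symmR hay) hav (h.symmR hqx) (hv x hxK) (hv y hyK)
            (hv q hqK) (h.symmB haq) h').elim)
      (by
        intro x hx q hq q' hq' hqq hxq
        obtain ⟨hqK, haq⟩ := mem_filter.1 hq
        obtain ⟨hqK', haq'⟩ := mem_filter.1 hq'
        obtain ⟨hxK, hax⟩ := mem_filter.1 hx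
        have hxq' : x ≠ q' := fun e => h.excl hax (e ▸ haq')
        rcases h.total hxq' with h' | h'
        · exact h'
        · exact (hb z x q q' a (hz x hxK) hxq (h.symmR (hz q hqK)) (hz q' hqK') (h.symmR hax)
            (h.symmB h') (h.symmB hqq) (h.symmB haq') haz haq).elim)
      (by
        obtain ⟨k, hk, hk'⟩ := h1
        exact ⟨k, mem_filter.2 ⟨hk, hk'⟩⟩)
      (by
        obtain ⟨k, hk, hk'⟩ := h2
        exact ⟨k, mem_filter.2 ⟨hk, hk'⟩⟩)
  obtain ⟨ha1K, haa1⟩ := mem_filter.1 ha1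
  obtain ⟨ha2K, haa2⟩ := mem_filter.1 ha2
  obtain ⟨hq1K, haq1⟩ := mem_filter.1 hq1
  obtain ⟨hq2K, haq2⟩ := mem_filter.1 hq2
  exact h5 a a1 q1 q2 a2 haa1 e1 e6 (h.symmR e2) (h.symmR haa2) haq1 haq2 e3 e5 (h.symmB e4)

/-- In a connected and co-connected set, a proper nonempty module `C` and `c₀ ∈ C`, either there is
a `P4` `c₀ m q _` or `_`, or the graph has a bull. We record what is needed later. -/
theorem crossing (h : TC R B) (hb : NoBull R B) {K C : Finset V}
    (hR : Conn R K) (hB : Conn B K) (hCK : C ⊆ K)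
    (hmod : ∀ x ∈ K, x ∉ C → (∀ c ∈ C, R x c) ∨ (∀ c ∈ C, B x c))
    {c : V} (hc : c ∈ C) (hne : C ≠ K) :
    ∃ p1 ∈ K, ∃ p2 ∈ K, ∃ p3 ∈ K, ∃ p4 ∈ K, P4 R B p1 p2 p3 p4 ∧
      ((p1 = c ∧ p3 ∉ C) ∨ (p3 = c ∧ p1 ∉ C)) := by
  classical
  by_contra hcon
  have hcne : (K \ C).Nonempty := by
    by_contra hemp
    apply hne
    apply Finset.Subset.antisymm hCK
    intro x hx
    by_contra hxC
    exact hemp ⟨x, mem_sdiff.2 ⟨hx, hxC⟩⟩
  obtain ⟨a1, ha1, a2, ha2, q1, hq1, q2, hq2, e1, e2, e3, e4, e5, e6⟩ :=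
    nested h (K := K) (A := K.filter (fun k => k ∉ C ∧ ∀ c ∈ C, B k c))
      (Q := K.filter (fun k => k ∉ C ∧ ∀ c ∈ C, R k c)) hR hB
      (filter_subset _ _) (filter_subset _ _)
      (by
        rw [Finset.disjoint_left]
        intro x hx hx'
        exact h.excl ((mem_filter.1 hx').2.2 c hc) ((mem_filter.1 hx).2.2 c hc))
      (by
        intro k hk hk1 hk2
        have hkC : k ∈ C := by
          by_contra hkC
          rcases hmod k hk hkC with h' | h'
          · exact hk2 (mem_filter.2 ⟨hk, hkC, h'⟩)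
          · exact hk1 (mem_filter.2 ⟨hk, hkC, h'⟩)
        exact ⟨fun a ha => h.symmB ((mem_filter.1 ha).2.2 k hkC),
          fun q hq => h.symmR ((mem_filter.1 hq).2.2 k hkC)⟩)
      (by
        intro q hq x hx y hy hxy hqx
        obtain ⟨hqK, hqC, hq'⟩ := mem_filter.1 hq
        obtain ⟨hxK, hxC, hx'⟩ := mem_filter.1 hx
        obtain ⟨hyK, hyC, hy'⟩ := mem_filter.1 hy
        have hqy : q ≠ y := fun e => h.excl (hq' c hc) (e ▸ hy' c hc)
        rcases h.total hqy with h' | h'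
        · exact h'
        · exact (hcon ⟨c, hCK hc, q, hqK, x, hxK, y, hyK,
            ⟨h.symmR (hq' c hc), hqx, hxy, h.symmB (hx' c hc), h.symmB (hy' c hc), h'⟩,
            Or.inl ⟨rfl, hxC⟩⟩).elim)
      (by
        intro x hx q hq q' hq' hqq hxq
        obtain ⟨hqK, hqC, hq1⟩ := mem_filter.1 hq
        obtain ⟨hqK', hqC', hq1'⟩ := mem_filter.1 hq'
        obtain ⟨hxK, hxC, hx1⟩ := mem_filter.1 hx
        have hxq' : x ≠ q' := fun e => h.excl (hq1' c hc) (e ▸ hx1 c hc)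
        rcases h.total hxq' with h' | h'
        · exact h'
        · exact (hcon ⟨x, hxK, q, hqK, c, hCK hc, q', hqK',
            ⟨hxq, hq1 c hc, h.symmR (hq1' c hc), hx1 c hc, h', hqq⟩,
            Or.inr ⟨rfl, hxC⟩⟩).elim)
      (by
        obtain ⟨x, hx, y, hy, hxy⟩ := hB C hCK ⟨c, hc⟩ hcne
        obtain ⟨hyK, hyC⟩ := mem_sdiff.1 hy
        refine ⟨y, mem_filter.2 ⟨hyK, hyC, ?_⟩⟩
        rcases hmod y hyK hyC with h' | h'
        · exact (h.excl (h' x hx) (h.symmB hxy)).elim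
        · exact h')
      (by
        obtain ⟨x, hx, y, hy, hxy⟩ := hR C hCK ⟨c, hc⟩ hcne
        obtain ⟨hyK, hyC⟩ := mem_sdiff.1 hy
        refine ⟨y, mem_filter.2 ⟨hyK, hyC, ?_⟩⟩
        rcases hmod y hyK hyC with h' | h'
        · exact h'
        · exact (h.excl (h.symmR hxy) (h' x hx)).elim)
  obtain ⟨-, -, h1⟩ := mem_filter.1 ha1
  obtain ⟨-, -, h2⟩ := mem_filter.1 ha2
  obtain ⟨-, -, h3⟩ := mem_filter.1 hq1
  obtain ⟨-, -, h4⟩ := mem_filter.1 hq2
  exact hb q1 q2 c a1 a2 e6 (h4 c hc) (h.symmR (h3 c hc)) (h.symmR e1) (h.symmR e2) e3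
    (h1 c hc) e5 e4 (h2 c hc)

def Good (R B : V → V → Prop) (S : Finset V) : Prop :=
  2 ≤ S.card ∧ ∀ x ∈ S, ∀ y ∈ S,
    (B x y → ∃ z ∈ S, R z x ∧ R z y) ∧ (R x y → ∃ z ∈ S, B z x ∧ B z y)

omit [DecidableEq V] in
theorem Good.swap {S : Finset V} (hS : Good R B S) : Good B R S :=
  ⟨hS.1, fun x hx y hy => ⟨(hS.2 x hx y hy).2, (hS.2 x hx y hy).1⟩⟩

omit [DecidableEq V] in
/-- Trace lemma. -/
theorem trace (h : TC R B) (h5 : NoC5 R B) (hb : NoBull R B) {p1 p2 p3 p4 v a : V}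
    (hp : P4 R B p1 p2 p3 p4) (h1 : B v p1) (h2 : B v p2) (h3 : B v p3) (h4 : B v p4)
    (hav : R a v) (hn : ¬ (R a p1 ∧ R a p2 ∧ R a p3 ∧ R a p4)) :
    (R a p1 → B a p2) ∧ (R a p2 → B a p3) ∧ (R a p3 → B a p4) ∧ (R a p1 → B a p4) := by
  obtain ⟨g1, g2, g3, g4, g5, g6⟩ := hp
  have n1 : a ≠ p1 := fun e => h.excl hav (h.symmB (e ▸ h1))
  have n2 : a ≠ p2 := fun e => h.excl hav (h.symmB (e ▸ h2))
  have n3 : a ≠ p3 := fun e => h.excl hav (h.symmB (e ▸ h3))
  have n4 : a ≠ p4 := fun e => h.excl hav (h.symmB (e ▸ h4))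
  have sR : ∀ {x y}, R x y → R y x := h.symmR
  have sB : ∀ {x y}, B x y → B y x := h.symmB
  rcases h.total n1 with r1 | r1 <;> rcases h.total n2 with r2 | r2 <;>
    rcases h.total n3 with r3 | r3 <;> rcases h.total n4 with r4 | r4
  · exact absurd ⟨r1, r2, r3, r4⟩ hn
  all_goals try exact ⟨fun u => (h.excl u r1).elim, fun u => (h.excl u r2).elim,
      fun u => (h.excl u r3).elim, fun u => (h.excl u r1).elim⟩
  all_goals try exact ⟨fun _ => r2, fun _ => r3, fun _ => r4, fun _ => r4⟩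
  all_goals try exact ⟨fun _ => r2, fun u => (h.excl u r2).elim, fun _ => r4, fun _ => r4⟩
  all_goals try exact ⟨fun u => (h.excl u r1).elim, fun _ => r3, fun u => (h.excl u r3).elim,
      fun u => (h.excl u r1).elim⟩
  all_goals exfalso
  -- traces 123, 124, 12, 134, 14, 234, 23, 34
  · exact hb a p3 p2 v p4 r3 (sR g2) (sR r2) hav g3 h3 h2 h4 (sB r4) (sB g6)
  · exact hb a p2 p1 v p3 r2 (sR g1) (sR r1) hav g2 h2 h1 h3 (sB r3) (sB g4)
  · exact hb a p2 p1 v p3 r2 (sR g1) (sR r1) hav g2 h2 h1 h3 (sB r3) (sB g4)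
  · exact hb a p3 p4 v p2 r3 g3 (sR r4) hav (sR g2) h3 h4 h2 (sB r2) g6
  · exact h5 a p1 p2 p3 p4 r1 g1 g2 g3 (sR r4) r2 r3 g4 g5 g6
  · exact hb a p2 p3 v p1 r2 g2 (sR r3) hav (sR g1) h2 h3 h1 (sB r1) g4
  · exact hb a p2 p3 v p1 r2 g2 (sR r3) hav (sR g1) h2 h3 h1 (sB r1) g4
  · exact hb a p3 p4 v p2 r3 g3 (sR r4) hav (sR g2) h3 h4 h2 (sB r2) g6

omit [DecidableEq V] in
/-- Claim 1: a `P4` with an anticenter `v` has a center adjacent to `v`. -/
theorem claim1 (h : TC R B) (h5 : NoC5 R B) (hb : NoBull R B) {S : Finset V} (hS : Good R B S)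
    {p1 p2 p3 p4 v : V} (hp : P4 R B p1 p2 p3 p4) (m1 : p1 ∈ S) (m2 : p2 ∈ S)
    (m4 : p4 ∈ S) (mv : v ∈ S) (h1 : B v p1) (h2 : B v p2) (h3 : B v p3) (h4 : B v p4) :
    ∃ z ∈ S, R z v ∧ R z p1 ∧ R z p2 ∧ R z p3 ∧ R z p4 := by
  by_contra hcon
  have sR : ∀ {x y}, R x y → R y x := h.symmR
  have sB : ∀ {x y}, B x y → B y x := h.symmB
  have hn : ∀ z ∈ S, R z v → ¬ (R z p1 ∧ R z p2 ∧ R z p3 ∧ R z p4) := by
    intro z hz hzv hz'
    exact hcon ⟨z, hz, hzv, hz'.1, hz'.2.1, hz'.2.2.1, hz'.2.2.2⟩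
  obtain ⟨a1, ha1, ha1v, ha1p⟩ := (hS.2 v mv p1 m1).1 h1
  obtain ⟨a2, ha2, ha2v, ha2p⟩ := (hS.2 v mv p2 m2).1 h2
  obtain ⟨a4, ha4, ha4v, ha4p⟩ := (hS.2 v mv p4 m4).1 h4
  -- F3
  have F3 : ∀ a b p q, R a v → R b v → R a p → R b q → B a q → B b p → B v p → B v q →
      (R p q → R a b) ∧ (B p q → B a b) := by
    intro a b p q hav hbv hap hbq haq hbp hvp hvq
    have hab : a ≠ b := fun e => h.excl hap (e ▸ hbp)
    constructor
    · intro hpq
      rcases h.total hab with h' | h'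
      · exact h'
      · exact (h5 v a p q b (sR hav) hap hpq (sR hbq) hbv hvp hvq haq h' (sB hbp)).elim
    · intro hpq
      rcases h.total hab with h' | h'
      · exact (hb a b v p q h' hbv (sR hav) hap hbq (sB hbp) (sB hvp) hpq (sB haq) (sB hvq)).elim
      · exact h'
  obtain ⟨g1, g2, g3, g4, g5, g6⟩ := hp
  have T1 := trace h h5 hb ⟨g1, g2, g3, g4, g5, g6⟩ h1 h2 h3 h4 ha1v (hn a1 ha1 ha1v)
  have T2 := trace h h5 hb ⟨g1, g2, g3, g4, g5, g6⟩ h1 h2 h3 h4 ha2v (hn a2 ha2 ha2v)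
  have T4 := trace h h5 hb ⟨g1, g2, g3, g4, g5, g6⟩ h1 h2 h3 h4 ha4v (hn a4 ha4 ha4v)
  have tot : ∀ {a p}, R a v → B v p → R a p ∨ B a p := by
    intro a p hav hvp
    exact h.total (fun e => h.excl hav (sB (e ▸ hvp)))
  have c12 : B a1 p2 := T1.1 ha1p
  have c14 : B a1 p4 := T1.2.2.2 ha1p
  have c43 : B a4 p3 := (tot ha4v h3).resolve_left (fun u => h.excl ha4p (T4.2.2.1 u))
  have c41 : B a4 p1 := (tot ha4v h1).resolve_left (fun u => h.excl ha4p (T4.2.2.2 u))
  have c23 : B a2 p3 := T2.2.1 ha2p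
  have c21 : B a2 p1 := (tot ha2v h1).resolve_left (fun u => h.excl ha2p (T2.1 u))
  have c13 : B a1 p3 := by
    refine (tot ha1v h3).resolve_left (fun u => ?_)
    exact h.excl ((F3 a1 a4 p3 p4 ha1v ha4v u ha4p c14 c43 h3 h4).1 g3)
      ((F3 a1 a4 p1 p4 ha1v ha4v ha1p ha4p c14 c41 h1 h4).2 g5)
  have c42 : B a4 p2 := by
    refine (tot ha4v h2).resolve_left (fun u => ?_)
    exact h.excl ((F3 a4 a1 p2 p1 ha4v ha1v u ha1p c41 c12 h2 h1).1 (sR g1))
      ((F3 a4 a1 p4 p1 ha4v ha1v ha4p ha1p c41 c14 h4 h1).2 (sB g5))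
  have c24 : B a2 p4 := by
    refine (tot ha2v h4).resolve_left (fun u => ?_)
    exact h.excl ((F3 a2 a1 p2 p1 ha2v ha1v ha2p ha1p c21 c12 h2 h1).1 (sR g1))
      ((F3 a2 a1 p4 p1 ha2v ha1v u ha1p c21 c14 h4 h1).2 (sB g5))
  have d12 : R a1 a2 := (F3 a1 a2 p1 p2 ha1v ha2v ha1p ha2p c12 c21 h1 h2).1 g1
  have d24 : B a2 a4 := (F3 a2 a4 p2 p4 ha2v ha4v ha2p ha4p c24 c42 h2 h4).2 g6
  have d14 : B a1 a4 := (F3 a1 a4 p1 p4 ha1v ha4v ha1p ha4p c14 c41 h1 h4).2 g5
  exact hb a2 v a1 p2 a4 ha2v (sR ha1v) d12 ha2p (sR ha4v) (sB h2) (sB c12) (sB c42)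
    (sB d24) (sB d14)

end

section
variable {V : Type*} [DecidableEq V] {R B : V → V → Prop}

/-- A connected set complete to `z`, saturated, is a module of `K`, when `v` is an anticenter of
`K` adjacent to `z`. -/
theorem modOfSat (h : TC R B) (hb : NoBull R B) {K C : Finset V} {v z : V}
    (hv : ∀ k ∈ K, B v k) (hzv : R z v) (hCK : C ⊆ K) (hC : Conn R C) (hz : ∀ c ∈ C, R z c)
    (hsat : ∀ m ∈ K, m ∉ C → R z m → ∀ c ∈ C, B m c) :
    ∀ x ∈ K, x ∉ C → (∀ c ∈ C, R x c) ∨ (∀ c ∈ C, B x c) := by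
  classical
  intro m hm hmC
  by_contra hcon
  push Not at hcon
  obtain ⟨⟨c1, hc1, hc1'⟩, c2, hc2, hc2'⟩ := hcon
  have hmc : ∀ c ∈ C, R m c ∨ B m c := fun c hc => h.total (fun e => hmC (e ▸ hc))
  have k1 : B m c1 := (hmc c1 hc1).resolve_left hc1'
  have k2 : R m c2 := (hmc c2 hc2).resolve_right hc2'
  obtain ⟨x, hx, y, hy, hxy⟩ := hC (C.filter (fun c => R m c)) (filter_subset _ _)
    ⟨c2, mem_filter.2 ⟨hc2, k2⟩⟩
    ⟨c1, mem_sdiff.2 ⟨hc1, fun hh => hc1' (mem_filter.1 hh).2⟩⟩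
  obtain ⟨hxC, hmx⟩ := mem_filter.1 hx
  obtain ⟨hyC, hyn⟩ := mem_sdiff.1 hy
  have hmy : B m y := (hmc y hyC).resolve_left (fun hh => hyn (mem_filter.2 ⟨hyC, hh⟩))
  have hzm : z ≠ m := fun e => h.excl hzv (h.symmB (e ▸ hv m hm))
  have hBzm : B z m := by
    rcases h.total hzm with h' | h'
    · exact (hc2' (hsat m hm hmC h' c2 hc2)).elim
    · exact h'
  exact hb z x y v m (hz x hxC) hxy (h.symmR (hz y hyC)) hzv (h.symmR hmx) (hv x (hCK hxC))
    (hv y (hCK hyC)) (hv m hm) (h.symmB hBzm) hmy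

/-- Claim B. -/
theorem claimB (h : TC R B) (h5 : NoC5 R B) (hb : NoBull R B) {S : Finset V} (hS : Good R B S)
    {K : Finset V} (hKS : K ⊆ S) (hKne : K.Nonempty) (hR : Conn R K) (hB : Conn B K) {v : V}
    (hvS : v ∈ S) (hv : ∀ k ∈ K, B v k) (hnc : ∀ z ∈ S, ¬ ∀ k ∈ K, R z k) : False := by
  classical
  -- existence of a maximal extension
  have maxext : ∀ (z c : V), c ∈ K → R z c → R z v →
      ∃ C ⊆ K, c ∈ C ∧ Conn R C ∧ (∀ c ∈ C, R z c) ∧
        (∀ m ∈ K, m ∉ C → R z m → ∀ c ∈ C, B m c) := by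
    intro z c hc hzc hzv
    have hne : (K.powerset.filter (fun C => c ∈ C ∧ Conn R C ∧ (∀ c ∈ C, R z c))).Nonempty := by
      refine ⟨{c}, mem_filter.2 ⟨mem_powerset.2 (by simpa using hc), by simp, ?_, by simpa using hzc⟩⟩
      intro X hX hXne hXc
      obtain ⟨x, hx⟩ := hXne
      obtain ⟨y, hy⟩ := hXc
      have hx' := hX hx
      simp only [mem_singleton] at hx'
      subst hx'
      simp only [mem_sdiff, mem_singleton] at hy
      exact absurd (hy.1 ▸ hx) hy.2
    obtain ⟨C, hC, hCmax⟩ := Finset.exists_max_image _ (fun C => C.card) hne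
    obtain ⟨hCK, hcC, hCconn, hCz⟩ := mem_filter.1 hC
    rw [mem_powerset] at hCK
    refine ⟨C, hCK, hcC, hCconn, hCz, ?_⟩
    intro m hm hmC hzm c' hc'
    by_contra hn
    have hRmc : R m c' := (h.total (x := m) (y := c') (fun e => hmC (e ▸ hc'))).resolve_right hn
    have hmem : insert m C ∈ K.powerset.filter (fun C => c ∈ C ∧ Conn R C ∧ (∀ c ∈ C, R z c)) := by
      refine mem_filter.2 ⟨mem_powerset.2 (insert_subset hm hCK), mem_insert_of_mem hcC,
        hCconn.insert h.symmR hmC ⟨c', hc', hRmc⟩, ?_⟩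
      intro x hx
      rcases mem_insert.1 hx with rfl | hx
      · exact hzm
      · exact hCz x hx
    have := hCmax _ hmem
    simp only [card_insert_of_notMem hmC] at this
    omega
  -- the best pair
  have hne : (K.powerset.filter (fun C => C.Nonempty ∧ Conn R C ∧
      ∃ z ∈ S, R z v ∧ ∀ c ∈ C, R z c)).Nonempty := by
    obtain ⟨k, hk⟩ := hKne
    obtain ⟨z, hz, hzv, hzk⟩ := (hS.2 v hvS k (hKS hk)).1 (hv k hk)
    obtain ⟨C, hCK, hkC, hCc, hCz, -⟩ := maxext z k hk hzk hzv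
    exact ⟨C, mem_filter.2 ⟨mem_powerset.2 hCK, ⟨k, hkC⟩, hCc, z, hz, hzv, hCz⟩⟩
  obtain ⟨C, hC, hCmax⟩ := Finset.exists_max_image _ (fun C => C.card) hne
  obtain ⟨hCK, ⟨c, hcC⟩, hCconn, z, hzS, hzv, hCz⟩ := mem_filter.1 hC
  rw [mem_powerset] at hCK
  have hsat : ∀ m ∈ K, m ∉ C → R z m → ∀ c ∈ C, B m c := by
    intro m hm hmC hzm c' hc'
    by_contra hn
    have hRmc : R m c' := (h.total (x := m) (y := c') (fun e => hmC (e ▸ hc'))).resolve_right hn
    have := hCmax (insert m C) (by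
      refine mem_filter.2 ⟨mem_powerset.2 (insert_subset hm hCK), ⟨m, mem_insert_self _ _⟩,
        hCconn.insert h.symmR hmC ⟨c', hc', hRmc⟩, z, hzS, hzv, ?_⟩
      intro x hx
      rcases mem_insert.1 hx with rfl | hx
      · exact hzm
      · exact hCz x hx)
    simp only [card_insert_of_notMem hmC] at this
    omega
  have hCmod := modOfSat h hb hv hzv hCK hCconn hCz hsat
  have hCneK : C ≠ K := by
    intro e
    exact hnc z hzS (fun k hk => hCz k (e ▸ hk))
  obtain ⟨p1, m1, p2, m2, p3, m3, p4, m4, hP, hcase⟩ :=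
    crossing h hb hR hB hCK hCmod hcC hCneK
  obtain ⟨z', hz'S, hz'v, z1, z2, z3, z4⟩ := claim1 h h5 hb hS hP (hKS m1) (hKS m2) (hKS m4) hvS
    (hv p1 m1) (hv p2 m2) (hv p3 m3) (hv p4 m4)
  obtain ⟨g1, g2, g3, g4, g5, g6⟩ := hP
  -- key: `c` and `q` nonadjacent, common neighbour `p2`
  have key : ∀ q ∈ K, q ∉ C → B q c → R z' q → R z' c → R p2 c → R q p2 → False := by
    intro q hq hqC hqc hz'q hz'c h2c hq2
    obtain ⟨C', hC'K, hcC', hC'conn, hC'z, hC'sat⟩ := maxext z' c (hCK hcC) hz'c hz'v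
    have hC'mod := modOfSat h hb hv hz'v hC'K hC'conn hC'z hC'sat
    have hp2C' : p2 ∈ C' := by
      by_contra hn
      exact h.excl h2c (hC'sat p2 m2 hn z2 c hcC')
    have hqC' : q ∈ C' := by
      by_contra hn
      exact h.excl hq2 (hC'sat q hq hn hz'q p2 hp2C')
    have hcard : C'.card ≤ C.card := hCmax C' (mem_filter.2 ⟨mem_powerset.2 hC'K, ⟨c, hcC'⟩,
      hC'conn, z', hz'S, hz'v, hC'z⟩)
    have hnsub : ¬ C ⊆ C' := by
      intro hsub
      have : C ⊂ C' := Finset.ssubset_iff_subset_ne.2 ⟨hsub, fun e => hqC (e ▸ hqC')⟩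
      have := Finset.card_lt_card this
      omega
    obtain ⟨t0, ht0, ht0'⟩ := Finset.not_subset.1 hnsub
    obtain ⟨s, hs, t, ht, hst⟩ := hCconn (C ∩ C') inter_subset_left ⟨c, mem_inter.2 ⟨hcC, hcC'⟩⟩
      ⟨t0, mem_sdiff.2 ⟨ht0, fun hh => ht0' (mem_inter.1 hh).2⟩⟩
    obtain ⟨hsC, hsC'⟩ := mem_inter.1 hs
    obtain ⟨htC, htn⟩ := mem_sdiff.1 ht
    have htC' : t ∉ C' := fun hh => htn (mem_inter.2 ⟨htC, hh⟩)
    have htq : R t q := by
      rcases hC'mod t (hCK htC) htC' with h' | h'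
      · exact h' q hqC'
      · exact (h.excl (h.symmR hst) (h' s hsC')).elim
    rcases hCmod q hq hqC with h' | h'
    · exact h.excl (h' c hcC) hqc
    · exact h.excl (h.symmR htq) (h' t htC)
  rcases hcase with ⟨rfl, hq⟩ | ⟨rfl, hq⟩
  · exact key p3 m3 hq (h.symmB g4) z3 z1 (h.symmR g1) (h.symmR g2)
  · exact key p1 m1 hq g4 z1 z3 g2 g1

/-- Step 3 : a maximal connected and co-connected set having a center or an anticenter cannot have
an anticenter. -/
theorem step3 (h : TC R B) (h5 : NoC5 R B) (hb : NoBull R B) {S : Finset V} (hS : Good R B S)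
    (hprime : ∀ K ⊆ S, 2 ≤ K.card → K ≠ S →
      ∃ a ∈ S, a ∉ K ∧ (∃ k ∈ K, R a k) ∧ (∃ k ∈ K, B a k))
    {K : Finset V} (hKS : K ⊆ S) (hK2 : 2 ≤ K.card) (hR : Conn R K) (hB : Conn B K)
    (hmax : ∀ K' ⊆ S, Conn R K' → Conn B K' → K.card < K'.card →
      (∀ v ∈ S, ¬ ∀ k ∈ K', B v k) ∧ (∀ v ∈ S, ¬ ∀ k ∈ K', R v k))
    {v : V} (hvS : v ∈ S) (hv : ∀ k ∈ K, B v k) : False := by
  have hKne : K ≠ S := by
    intro e
    exact h.irrB (hv v (e ▸ hvS))
  have hKnon : K.Nonempty := by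
    rw [← Finset.card_pos]; omega
  obtain ⟨a, haS, haK, h1, h2⟩ := hprime K hKS hK2 hKne
  have hmax' := hmax (insert a K) (insert_subset haS hKS) (hR.insert h.symmR haK h1)
    (hB.insert h.symmB haK h2) (by rw [card_insert_of_notMem haK]; omega)
  have hav : R a v := by
    have hne : a ≠ v := by
      rintro rfl
      obtain ⟨k, hk, hk'⟩ := h1
      exact h.excl hk' (hv k hk)
    rcases h.total hne with h' | h'
    · exact h'
    · exfalso
      apply hmax'.1 v hvS
      intro k hk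
      rcases mem_insert.1 hk with rfl | hk
      · exact h.symmB h'
      · exact hv k hk
  apply claimB h h5 hb hS hKS hKnon hR hB hvS hv
  intro z hzS hz
  have haz : B a z := by
    have hne : a ≠ z := by
      rintro rfl
      obtain ⟨k, hk, hk'⟩ := h2
      exact h.excl (hz k hk) hk'
    rcases h.total hne with h' | h'
    · exfalso
      apply hmax'.2 z hzS
      intro k hk
      rcases mem_insert.1 hk with rfl | hk
      · exact h.symmR h'
      · exact hz k hk
    · exact h'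
  exact claimA h h5 hb hR hB hv hz hav haz h1 h2

/-- No connected and co-connected set with at least two elements has a center or anticenter. -/
theorem step3' (h : TC R B) (h5 : NoC5 R B) (hb : NoBull R B) {S : Finset V} (hS : Good R B S)
    (hprime : ∀ K ⊆ S, 2 ≤ K.card → K ≠ S →
      ∃ a ∈ S, a ∉ K ∧ (∃ k ∈ K, R a k) ∧ (∃ k ∈ K, B a k))
    {K : Finset V} (hKS : K ⊆ S) (hK2 : 2 ≤ K.card) (hR : Conn R K) (hB : Conn B K)
    (hcen : ∃ v ∈ S, (∀ k ∈ K, B v k) ∨ (∀ k ∈ K, R v k)) : False := by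
  classical
  have hne : (S.powerset.filter (fun K => 2 ≤ K.card ∧ Conn R K ∧ Conn B K ∧
      ∃ v ∈ S, (∀ k ∈ K, B v k) ∨ (∀ k ∈ K, R v k))).Nonempty :=
    ⟨K, mem_filter.2 ⟨mem_powerset.2 hKS, hK2, hR, hB, hcen⟩⟩
  obtain ⟨M, hM, hMmax⟩ := Finset.exists_max_image _ (fun C => C.card) hne
  obtain ⟨hMS, hM2, hMR, hMB, v, hvS, hv⟩ := mem_filter.1 hM
  rw [mem_powerset] at hMS
  have hmax : ∀ K' ⊆ S, Conn R K' → Conn B K' → M.card < K'.card →
      (∀ v ∈ S, ¬ ∀ k ∈ K', B v k) ∧ (∀ v ∈ S, ¬ ∀ k ∈ K', R v k) := by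
    intro K' hK'S hK'R hK'B hlt
    constructor
    · intro w hw hwk
      have := hMmax K' (mem_filter.2 ⟨mem_powerset.2 hK'S, by omega, hK'R, hK'B, w, hw, Or.inl hwk⟩)
      omega
    · intro w hw hwk
      have := hMmax K' (mem_filter.2 ⟨mem_powerset.2 hK'S, by omega, hK'R, hK'B, w, hw, Or.inr hwk⟩)
      omega
  rcases hv with hv | hv
  · exact step3 h h5 hb hS hprime hMS hM2 hMR hMB hmax hvS hv
  · refine step3 h.swap (h5.swap h) (hb.swap h) hS.swap ?_ hMS hM2 hMB hMR ?_ hvS hv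
    · intro K hK h2 hne
      obtain ⟨a, haS, haK, h1, h2⟩ := hprime K hK h2 hne
      exact ⟨a, haS, haK, h2, h1⟩
    · intro K' hK'S h1 h2 h3
      exact (hmax K' hK'S h2 h1 h3).symm

theorem connPath (hs : ∀ {x y}, R x y → R y x) {a b c d : V} (h1 : R a b) (h2 : R b c)
    (h3 : R c d) : Conn R {a, b, c, d} := by
  intro X hX hXne hXc
  have key : ∀ x y, R x y → x ∈ ({a, b, c, d} : Finset V) → y ∈ ({a, b, c, d} : Finset V) →
      (x ∈ X ↔ y ∈ X) ∨ ∃ x ∈ X, ∃ y ∈ ({a, b, c, d} : Finset V) \ X, R x y := by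
    intro x y hxy hx hy
    by_cases hxX : x ∈ X
    · by_cases hyX : y ∈ X
      · left; tauto
      · right; exact ⟨x, hxX, y, mem_sdiff.2 ⟨hy, hyX⟩, hxy⟩
    · by_cases hyX : y ∈ X
      · right; exact ⟨y, hyX, x, mem_sdiff.2 ⟨hx, hxX⟩, hs hxy⟩
      · left; tauto
  rcases key a b h1 (by simp) (by simp) with k1 | k1
  · rcases key b c h2 (by simp) (by simp) with k2 | k2
    · rcases key c d h3 (by simp) (by simp) with k3 | k3
      · exfalso
        obtain ⟨x, hx⟩ := hXne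
        obtain ⟨y, hy⟩ := hXc
        have hx' := hX hx
        simp only [mem_insert, mem_singleton, mem_sdiff] at hx' hy
        have haX : a ∈ X := by
          rcases hx' with rfl | rfl | rfl | rfl <;> tauto
        have hbX := k1.1 haX
        have hcX := k2.1 hbX
        have hdX := k3.1 hcX
        rcases hy with ⟨rfl | rfl | rfl | rfl, hy2⟩ <;> tauto
      · exact k3
    · exact k2
  · exact k1

/-- No `P4` in `S` has a center or an anticenter. -/
theorem noGem (h : TC R B) (h5 : NoC5 R B) (hb : NoBull R B) {S : Finset V} (hS : Good R B S)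
    (hprime : ∀ K ⊆ S, 2 ≤ K.card → K ≠ S →
      ∃ a ∈ S, a ∉ K ∧ (∃ k ∈ K, R a k) ∧ (∃ k ∈ K, B a k))
    {a b c d v : V} (hp : P4 R B a b c d) (ha : a ∈ S) (hb' : b ∈ S) (hc : c ∈ S) (hd : d ∈ S)
    (hv : v ∈ S) (hcen : (B v a ∧ B v b ∧ B v c ∧ B v d) ∨ (R v a ∧ R v b ∧ R v c ∧ R v d)) :
    False := by
  have hp' := hp.swap h
  obtain ⟨g1, g2, g3, g4, g5, g6⟩ := hp
  obtain ⟨e1, e2, e3, -, -, -⟩ := hp'
  have hconnB : Conn B {a, b, c, d} := by
    have := connPath (R := B) h.symmB e1 e2 e3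
    have e : ({b, d, a, c} : Finset V) = {a, b, c, d} := by
      ext x; simp only [mem_insert, mem_singleton]; tauto
    rwa [e] at this
  refine step3' h h5 hb hS hprime (K := {a, b, c, d}) ?_ ?_ (connPath h.symmR g1 g2 g3) hconnB
    ⟨v, hv, ?_⟩
  · intro x hx
    simp only [mem_insert, mem_singleton] at hx
    rcases hx with rfl | rfl | rfl | rfl <;> assumption
  · have hab : a ≠ b := fun e => h.irrR (e ▸ g1)
    calc 2 = ({a, b} : Finset V).card := (Finset.card_pair hab).symm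
      _ ≤ _ := Finset.card_le_card (by
        intro x hx
        simp only [mem_insert, mem_singleton] at hx ⊢
        tauto)
  · rcases hcen with ⟨c1, c2, c3, c4⟩ | ⟨c1, c2, c3, c4⟩
    · left
      intro k hk
      simp only [mem_insert, mem_singleton] at hk
      rcases hk with rfl | rfl | rfl | rfl <;> assumption
    · right
      intro k hk
      simp only [mem_insert, mem_singleton] at hk
      rcases hk with rfl | rfl | rfl | rfl <;> assumption

/-- Every set with at least two elements contains, or is, a module which is a pair, or a `P4`. -/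
theorem pairOrP4 (h : TC R B) {S : Finset V} (hS : 2 ≤ S.card) :
    (∃ x ∈ S, ∃ y ∈ S, x ≠ y ∧ ∀ s ∈ S, s ≠ x → s ≠ y → (R s x ∧ R s y) ∨ (B s x ∧ B s y)) ∨
    (∃ a ∈ S, ∃ b ∈ S, ∃ c ∈ S, ∃ d ∈ S, P4 R B a b c d) := by
  classical
  have hne : (S.powerset.filter (fun M => 2 ≤ M.card ∧
      ∀ s ∈ S, s ∉ M → (∀ m ∈ M, R s m) ∨ (∀ m ∈ M, B s m))).Nonempty :=
    ⟨S, mem_filter.2 ⟨mem_powerset.2 (Subset.refl _), hS, fun s hs hs' => (hs' hs).elim⟩⟩
  obtain ⟨M, hM, hMmin⟩ := Finset.exists_min_image _ (fun C => C.card) hne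
  obtain ⟨hMS, hM2, hMmod⟩ := mem_filter.1 hM
  rw [mem_powerset] at hMS
  -- a cut gives smaller modules
  have cut : ∀ (P : V → V → Prop), (∀ {x y}, P x y → P y x) →
      (∀ X ⊆ M, (∀ x ∈ X, ∀ y ∈ M \ X, P x y) →
        ∀ s ∈ S, s ∉ X → (∀ m ∈ X, R s m) ∨ (∀ m ∈ X, B s m)) →
      3 ≤ M.card → ∀ X ⊆ M, X.Nonempty → (M \ X).Nonempty →
      (∀ x ∈ X, ∀ y ∈ M \ X, P x y) → False := by
    intro P hP hmodP h3 X hX hXne hXc hall
    have hcard : X.card + (M \ X).card = M.card := by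
      rw [add_comm]; exact Finset.card_sdiff_add_card_eq_card hX
    have hlt1 : X.card < M.card := by
      have := Finset.card_pos.2 hXc
      omega
    have hlt2 : (M \ X).card < M.card := by
      have := Finset.card_pos.2 hXne
      omega
    rcases Nat.lt_or_ge X.card 2 with hX2 | hX2
    · -- the complement is large
      have h2 : 2 ≤ (M \ X).card := by omega
      have hsd : M \ (M \ X) = X := by
        exact Finset.sdiff_sdiff_eq_self hX
      have := hMmin (M \ X) (mem_filter.2 ⟨mem_powerset.2 (sdiff_subset.trans hMS), h2,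
        hmodP (M \ X) sdiff_subset (by
          intro x hx y hy
          rw [hsd] at hy
          exact hP (hall y hy x hx))⟩)
      omega
    · have := hMmin X (mem_filter.2 ⟨mem_powerset.2 (hX.trans hMS), hX2, hmodP X hX hall⟩)
      omega
  rcases Nat.lt_or_ge M.card 3 with h3 | h3
  · left
    have hc2 : M.card = 2 := by omega
    obtain ⟨x, y, hxy, rfl⟩ := Finset.card_eq_two.1 hc2
    refine ⟨x, hMS (by simp), y, hMS (by simp), hxy, ?_⟩
    intro s hs hsx hsy
    rcases hMmod s hs (by simp [hsx, hsy]) with h' | h'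
    · left; exact ⟨h' x (by simp), h' y (by simp)⟩
    · right; exact ⟨h' x (by simp), h' y (by simp)⟩
  · right
    have hconnR : Conn R M := by
      intro X hX hXne hXc
      by_contra hcon
      push Not at hcon
      refine cut B h.symmB ?_ h3 X hX hXne hXc ?_
      · intro Y hY hall s hs hsY
        by_cases hsM : s ∈ M
        · right
          intro m hm
          exact h.symmB (hall m hm s (mem_sdiff.2 ⟨hsM, hsY⟩))
        · rcases hMmod s hs hsM with h' | h'
          · left; exact fun m hm => h' m (hY hm)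
          · right; exact fun m hm => h' m (hY hm)
      · intro x hx y hy
        have hxy : x ≠ y := by
          rintro rfl
          exact (mem_sdiff.1 hy).2 hx
        exact (h.total hxy).resolve_left (hcon x hx y hy)
    have hconnB : Conn B M := by
      intro X hX hXne hXc
      by_contra hcon
      push Not at hcon
      refine cut R h.symmR ?_ h3 X hX hXne hXc ?_
      · intro Y hY hall s hs hsY
        by_cases hsM : s ∈ M
        · left
          intro m hm
          exact h.symmR (hall m hm s (mem_sdiff.2 ⟨hsM, hsY⟩))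
        · rcases hMmod s hs hsM with h' | h'
          · left; exact fun m hm => h' m (hY hm)
          · right; exact fun m hm => h' m (hY hm)
      · intro x hx y hy
        have hxy : x ≠ y := by
          rintro rfl
          exact (mem_sdiff.1 hy).2 hx
        exact (h.total hxy).resolve_right (hcon x hx y hy)
    by_contra hcon
    have hM0 : M.Nonempty := by rw [← Finset.card_pos]; omega
    obtain ⟨c, hc⟩ := hM0
    have hcM : ({c} : Finset V) ⊆ M := by simpa using hc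
    have hne1 : (M \ {c}).Nonempty := by
      rw [← Finset.card_pos, Finset.card_sdiff_of_subset hcM, Finset.card_singleton]; omega
    obtain ⟨a1, ha1, a2, ha2, q1, hq1, q2, hq2, e1, e2, e3, e4, e5, e6⟩ :=
      nested h (K := M) (A := M.filter (fun k => B k c)) (Q := M.filter (fun k => R k c))
        hconnR hconnB (filter_subset _ _) (filter_subset _ _)
        (by
          rw [Finset.disjoint_left]
          intro x hx hx'
          exact h.excl (mem_filter.1 hx').2 (mem_filter.1 hx).2)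
        (by
          intro k hk hk1 hk2
          have hkc : k = c := by
            by_contra hkc
            rcases h.total hkc with h' | h'
            · exact hk2 (mem_filter.2 ⟨hk, h'⟩)
            · exact hk1 (mem_filter.2 ⟨hk, h'⟩)
          subst hkc
          exact ⟨fun a ha => h.symmB (mem_filter.1 ha).2,
            fun q hq => h.symmR (mem_filter.1 hq).2⟩)
        (by
          intro q hq x hx y hy hxy hqx
          obtain ⟨hqM, hq'⟩ := mem_filter.1 hq
          obtain ⟨hxM, hx'⟩ := mem_filter.1 hx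
          obtain ⟨hyM, hy'⟩ := mem_filter.1 hy
          have hqy : q ≠ y := fun e => h.excl hq' (e ▸ hy')
          rcases h.total hqy with h' | h'
          · exact h'
          · exact (hcon ⟨c, hMS hc, q, hMS hqM, x, hMS hxM, y, hMS hyM,
              h.symmR hq', hqx, hxy, h.symmB hx', h.symmB hy', h'⟩).elim)
        (by
          intro x hx q hq q' hq' hqq hxq
          obtain ⟨hqM, hq1⟩ := mem_filter.1 hq
          obtain ⟨hqM', hq1'⟩ := mem_filter.1 hq'
          obtain ⟨hxM, hx1⟩ := mem_filter.1 hx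
          have hxq' : x ≠ q' := fun e => h.excl hq1' (e ▸ hx1)
          rcases h.total hxq' with h' | h'
          · exact h'
          · exact (hcon ⟨x, hMS hxM, q, hMS hqM, c, hMS hc, q', hMS hqM',
              hxq, hq1, h.symmR hq1', hx1, h', hqq⟩).elim)
        (by
          obtain ⟨x, hx, y, hy, hxy⟩ := hconnB {c} hcM ⟨c, by simp⟩ hne1
          simp only [mem_singleton] at hx
          subst hx
          exact ⟨y, mem_filter.2 ⟨(mem_sdiff.1 hy).1, h.symmB hxy⟩⟩)
        (by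
          obtain ⟨x, hx, y, hy, hxy⟩ := hconnR {c} hcM ⟨c, by simp⟩ hne1
          simp only [mem_singleton] at hx
          subst hx
          exact ⟨y, mem_filter.2 ⟨(mem_sdiff.1 hy).1, h.symmR hxy⟩⟩)
    obtain ⟨k1, -⟩ := mem_filter.1 ha1
    obtain ⟨k2, -⟩ := mem_filter.1 ha2
    obtain ⟨k3, -⟩ := mem_filter.1 hq1
    obtain ⟨k4, -⟩ := mem_filter.1 hq2
    exact hcon ⟨a1, hMS k1, q1, hMS k3, q2, hMS k4, a2, hMS k2, e1, e6, h.symmR e2, e3, e5,
      h.symmB e4⟩

/-- The colouring switched with respect to the neighbours of `v`. -/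
def Sw (P N R : V → V → Prop) (v : V) (x y : V) : Prop :=
  (P x y ∧ (R v x ↔ R v y)) ∨ (N x y ∧ ¬ (R v x ↔ R v y))

omit [DecidableEq V] in
theorem TC.switch (h : TC R B) (v : V) : TC (Sw R B R v) (Sw B R R v) := by
  constructor
  · intro x y hxy
    rcases hxy with ⟨h1, h2⟩ | ⟨h1, h2⟩
    · exact Or.inl ⟨h.symmR h1, h2.symm⟩
    · exact Or.inr ⟨h.symmB h1, fun h3 => h2 h3.symm⟩
  · intro x y hxy
    rcases hxy with ⟨h1, h2⟩ | ⟨h1, h2⟩
    · exact Or.inl ⟨h.symmB h1, h2.symm⟩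
    · exact Or.inr ⟨h.symmR h1, fun h3 => h2 h3.symm⟩
  · intro x y h1 h2
    rcases h1 with ⟨a1, a2⟩ | ⟨a1, a2⟩ <;> rcases h2 with ⟨b1, b2⟩ | ⟨b1, b2⟩
    · exact h.excl a1 b1
    · exact b2 a2
    · exact a2 b2
    · exact h.excl b1 a1
  · intro x hx
    rcases hx with ⟨a1, a2⟩ | ⟨a1, a2⟩
    · exact h.irrR a1
    · exact h.irrB a1
  · intro x hx
    rcases hx with ⟨a1, a2⟩ | ⟨a1, a2⟩
    · exact h.irrB a1
    · exact h.irrR a1
  · intro x y hxy
    by_cases hi : (R v x ↔ R v y)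
    · rcases h.total hxy with h' | h'
      · exact Or.inl (Or.inl ⟨h', hi⟩)
      · exact Or.inr (Or.inl ⟨h', hi⟩)
    · rcases h.total hxy with h' | h'
      · exact Or.inr (Or.inr ⟨h', hi⟩)
      · exact Or.inl (Or.inr ⟨h', hi⟩)

omit [DecidableEq V] in
/-- A `P4` of the switched colouring gives, together with `v`, one of the four graphs in the
switching class of the 5-cycle. -/
theorem switchP4 (h : TC R B) (h5 : NoC5 R B) (hb : NoBull R B) {S : Finset V}
    (hg : ∀ a b c d v, P4 R B a b c d → a ∈ S → b ∈ S → c ∈ S → d ∈ S → v ∈ S →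
      (B v a ∧ B v b ∧ B v c ∧ B v d) ∨ (R v a ∧ R v b ∧ R v c ∧ R v d) → False)
    {a b c d v : V} (hvS : v ∈ S) (haS : a ∈ S) (hbS : b ∈ S) (hcS : c ∈ S) (hdS : d ∈ S)
    (na : v ≠ a) (nb : v ≠ b) (nc : v ≠ c) (nd : v ≠ d)
    (hp : P4 (Sw R B R v) (Sw B R R v) a b c d) : False := by
  obtain ⟨g1, g2, g3, g4, g5, g6⟩ := hp
  have cR : ∀ {x y}, Sw R B R v x y → (((R v x ∧ R v y) ∨ (B v x ∧ B v y)) → R x y) ∧
      (((R v x ∧ B v y) ∨ (B v x ∧ R v y)) → B x y) := by
    intro x y hxy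
    have e1 : R v x → B v x → False := fun a b => h.excl a b
    have e2 : R v y → B v y → False := fun a b => h.excl a b
    unfold Sw at hxy
    tauto
  have cB : ∀ {x y}, Sw B R R v x y → (((R v x ∧ R v y) ∨ (B v x ∧ B v y)) → B x y) ∧
      (((R v x ∧ B v y) ∨ (B v x ∧ R v y)) → R x y) := by
    intro x y hxy
    have e1 : R v x → B v x → False := fun a b => h.excl a b
    have e2 : R v y → B v y → False := fun a b => h.excl a b
    unfold Sw at hxy
    tauto
  rcases h.total na with va | va <;> rcases h.total nb with vb | vb <;>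
    rcases h.total nc with vc | vc <;> rcases h.total nd with vd | vd
  · have fab : R a b := (cR g1).1 (Or.inl ⟨va, vb⟩)
    have fbc : R b c := (cR g2).1 (Or.inl ⟨vb, vc⟩)
    have fcd : R c d := (cR g3).1 (Or.inl ⟨vc, vd⟩)
    have fac : B a c := (cB g4).1 (Or.inl ⟨va, vc⟩)
    have fad : B a d := (cB g5).1 (Or.inl ⟨va, vd⟩)
    have fbd : B b d := (cB g6).1 (Or.inl ⟨vb, vd⟩)
    exact hg a b c d v ⟨fab, fbc, fcd, fac, fad, fbd⟩ (by assumption) (by assumption) (by assumption) (by assumption) (by assumption) (Or.inr ⟨va, vb, vc, vd⟩)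
  · have fab : R a b := (cR g1).1 (Or.inl ⟨va, vb⟩)
    have fbc : R b c := (cR g2).1 (Or.inl ⟨vb, vc⟩)
    have fcd : B c d := (cR g3).2 (Or.inl ⟨vc, vd⟩)
    have fac : B a c := (cB g4).1 (Or.inl ⟨va, vc⟩)
    have fad : R a d := (cB g5).2 (Or.inl ⟨va, vd⟩)
    have fbd : R b d := (cB g6).2 (Or.inl ⟨vb, vd⟩)
    exact hg c v a d b ⟨(h.symmR vc), va, fad, (h.symmB fac), fcd, vd⟩ (by assumption) (by assumption) (by assumption) (by assumption) (by assumption) (Or.inr ⟨fbc, (h.symmR vb), (h.symmR fab), fbd⟩)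
  · have fab : R a b := (cR g1).1 (Or.inl ⟨va, vb⟩)
    have fbc : B b c := (cR g2).2 (Or.inl ⟨vb, vc⟩)
    have fcd : B c d := (cR g3).2 (Or.inr ⟨vc, vd⟩)
    have fac : R a c := (cB g4).2 (Or.inl ⟨va, vc⟩)
    have fad : B a d := (cB g5).1 (Or.inl ⟨va, vd⟩)
    have fbd : B b d := (cB g6).1 (Or.inl ⟨vb, vd⟩)
    exact hb v a b d c va fab (h.symmR vb) vd fac (h.symmB fad) (h.symmB fbd) (h.symmB fcd) (h.symmB vc) (h.symmB fbc)
  · have fab : R a b := (cR g1).1 (Or.inl ⟨va, vb⟩)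
    have fbc : B b c := (cR g2).2 (Or.inl ⟨vb, vc⟩)
    have fcd : R c d := (cR g3).1 (Or.inr ⟨vc, vd⟩)
    have fac : R a c := (cB g4).2 (Or.inl ⟨va, vc⟩)
    have fad : R a d := (cB g5).2 (Or.inl ⟨va, vd⟩)
    have fbd : R b d := (cB g6).2 (Or.inl ⟨vb, vd⟩)
    exact hg v b d c a ⟨vb, fbd, (h.symmR fcd), vd, vc, fbc⟩ (by assumption) (by assumption) (by assumption) (by assumption) (by assumption) (Or.inr ⟨(h.symmR va), fab, fad, fac⟩)
  · have fab : B a b := (cR g1).2 (Or.inl ⟨va, vb⟩)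
    have fbc : B b c := (cR g2).2 (Or.inr ⟨vb, vc⟩)
    have fcd : R c d := (cR g3).1 (Or.inl ⟨vc, vd⟩)
    have fac : B a c := (cB g4).1 (Or.inl ⟨va, vc⟩)
    have fad : B a d := (cB g5).1 (Or.inl ⟨va, vd⟩)
    have fbd : R b d := (cB g6).2 (Or.inr ⟨vb, vd⟩)
    exact hb v d c a b vd (h.symmR fcd) (h.symmR vc) va (h.symmR fbd) fad fac fab (h.symmB vb) fbc
  · have fab : B a b := (cR g1).2 (Or.inl ⟨va, vb⟩)
    have fbc : B b c := (cR g2).2 (Or.inr ⟨vb, vc⟩)
    have fcd : B c d := (cR g3).2 (Or.inl ⟨vc, vd⟩)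
    have fac : B a c := (cB g4).1 (Or.inl ⟨va, vc⟩)
    have fad : R a d := (cB g5).2 (Or.inl ⟨va, vd⟩)
    have fbd : B b d := (cB g6).1 (Or.inr ⟨vb, vd⟩)
    exact hg c v a d b ⟨(h.symmR vc), va, fad, (h.symmB fac), fcd, vd⟩ (by assumption) (by assumption) (by assumption) (by assumption) (by assumption) (Or.inl ⟨fbc, (h.symmB vb), (h.symmB fab), fbd⟩)
  · have fab : B a b := (cR g1).2 (Or.inl ⟨va, vb⟩)
    have fbc : R b c := (cR g2).1 (Or.inr ⟨vb, vc⟩)
    have fcd : B c d := (cR g3).2 (Or.inr ⟨vc, vd⟩)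
    have fac : R a c := (cB g4).2 (Or.inl ⟨va, vc⟩)
    have fad : B a d := (cB g5).1 (Or.inl ⟨va, vd⟩)
    have fbd : R b d := (cB g6).2 (Or.inr ⟨vb, vd⟩)
    exact h5 v a c b d va fac (h.symmR fbc) fbd (h.symmR vd) vc vb fab fad fcd
  · have fab : B a b := (cR g1).2 (Or.inl ⟨va, vb⟩)
    have fbc : R b c := (cR g2).1 (Or.inr ⟨vb, vc⟩)
    have fcd : R c d := (cR g3).1 (Or.inr ⟨vc, vd⟩)
    have fac : R a c := (cB g4).2 (Or.inl ⟨va, vc⟩)
    have fad : R a d := (cB g5).2 (Or.inl ⟨va, vd⟩)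
    have fbd : B b d := (cB g6).1 (Or.inr ⟨vb, vd⟩)
    exact hb a c d v b fac fcd (h.symmR fad) (h.symmR va) (h.symmR fbc) vc vd vb (h.symmB fab) fbd
  · have fab : B a b := (cR g1).2 (Or.inr ⟨va, vb⟩)
    have fbc : R b c := (cR g2).1 (Or.inl ⟨vb, vc⟩)
    have fcd : R c d := (cR g3).1 (Or.inl ⟨vc, vd⟩)
    have fac : R a c := (cB g4).2 (Or.inr ⟨va, vc⟩)
    have fad : R a d := (cB g5).2 (Or.inr ⟨va, vd⟩)
    have fbd : B b d := (cB g6).1 (Or.inl ⟨vb, vd⟩)
    exact hg a d v b c ⟨fad, (h.symmR vd), vb, (h.symmB va), fab, (h.symmB fbd)⟩ (by assumption) (by assumption) (by assumption) (by assumption) (by assumption) (Or.inr ⟨(h.symmR fac), fcd, (h.symmR vc), (h.symmR fbc)⟩)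
  · have fab : B a b := (cR g1).2 (Or.inr ⟨va, vb⟩)
    have fbc : R b c := (cR g2).1 (Or.inl ⟨vb, vc⟩)
    have fcd : B c d := (cR g3).2 (Or.inl ⟨vc, vd⟩)
    have fac : R a c := (cB g4).2 (Or.inr ⟨va, vc⟩)
    have fad : B a d := (cB g5).1 (Or.inr ⟨va, vd⟩)
    have fbd : R b d := (cB g6).2 (Or.inl ⟨vb, vd⟩)
    exact hb b c v d a fbc (h.symmR vc) vb fbd (h.symmR fac) (h.symmB fcd) (h.symmB vd) (h.symmB fad) fab (h.symmB va)
  · have fab : B a b := (cR g1).2 (Or.inr ⟨va, vb⟩)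
    have fbc : B b c := (cR g2).2 (Or.inl ⟨vb, vc⟩)
    have fcd : B c d := (cR g3).2 (Or.inr ⟨vc, vd⟩)
    have fac : B a c := (cB g4).1 (Or.inr ⟨va, vc⟩)
    have fad : R a d := (cB g5).2 (Or.inr ⟨va, vd⟩)
    have fbd : B b d := (cB g6).1 (Or.inl ⟨vb, vd⟩)
    exact hg a d v b c ⟨fad, (h.symmR vd), vb, (h.symmB va), fab, (h.symmB fbd)⟩ (by assumption) (by assumption) (by assumption) (by assumption) (by assumption) (Or.inl ⟨(h.symmB fac), fcd, (h.symmB vc), (h.symmB fbc)⟩)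
  · have fab : B a b := (cR g1).2 (Or.inr ⟨va, vb⟩)
    have fbc : B b c := (cR g2).2 (Or.inl ⟨vb, vc⟩)
    have fcd : R c d := (cR g3).1 (Or.inr ⟨vc, vd⟩)
    have fac : B a c := (cB g4).1 (Or.inr ⟨va, vc⟩)
    have fad : B a d := (cB g5).1 (Or.inr ⟨va, vd⟩)
    have fbd : R b d := (cB g6).2 (Or.inl ⟨vb, vd⟩)
    exact hg v b d c a ⟨vb, fbd, (h.symmR fcd), vd, vc, fbc⟩ (by assumption) (by assumption) (by assumption) (by assumption) (by assumption) (Or.inl ⟨(h.symmB va), fab, fad, fac⟩)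
  · have fab : R a b := (cR g1).1 (Or.inr ⟨va, vb⟩)
    have fbc : B b c := (cR g2).2 (Or.inr ⟨vb, vc⟩)
    have fcd : R c d := (cR g3).1 (Or.inl ⟨vc, vd⟩)
    have fac : R a c := (cB g4).2 (Or.inr ⟨va, vc⟩)
    have fad : R a d := (cB g5).2 (Or.inr ⟨va, vd⟩)
    have fbd : R b d := (cB g6).2 (Or.inr ⟨vb, vd⟩)
    exact hg v c a b d ⟨vc, (h.symmR fac), fab, va, vb, (h.symmB fbc)⟩ (by assumption) (by assumption) (by assumption) (by assumption) (by assumption) (Or.inr ⟨(h.symmR vd), (h.symmR fcd), (h.symmR fad), (h.symmR fbd)⟩)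
  · have fab : R a b := (cR g1).1 (Or.inr ⟨va, vb⟩)
    have fbc : B b c := (cR g2).2 (Or.inr ⟨vb, vc⟩)
    have fcd : B c d := (cR g3).2 (Or.inl ⟨vc, vd⟩)
    have fac : R a c := (cB g4).2 (Or.inr ⟨va, vc⟩)
    have fad : B a d := (cB g5).1 (Or.inr ⟨va, vd⟩)
    have fbd : B b d := (cB g6).1 (Or.inr ⟨vb, vd⟩)
    exact hg v c a b d ⟨vc, (h.symmR fac), fab, va, vb, (h.symmB fbc)⟩ (by assumption) (by assumption) (by assumption) (by assumption) (by assumption) (Or.inl ⟨(h.symmB vd), (h.symmB fcd), (h.symmB fad), (h.symmB fbd)⟩)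
  · have fab : R a b := (cR g1).1 (Or.inr ⟨va, vb⟩)
    have fbc : R b c := (cR g2).1 (Or.inr ⟨vb, vc⟩)
    have fcd : B c d := (cR g3).2 (Or.inr ⟨vc, vd⟩)
    have fac : B a c := (cB g4).1 (Or.inr ⟨va, vc⟩)
    have fad : R a d := (cB g5).2 (Or.inr ⟨va, vd⟩)
    have fbd : R b d := (cB g6).2 (Or.inr ⟨vb, vd⟩)
    exact hb b d a c v fbd (h.symmR fad) fab fbc (h.symmR vd) fcd (h.symmB fac) (h.symmB vc) vb va
  · have fab : R a b := (cR g1).1 (Or.inr ⟨va, vb⟩)
    have fbc : R b c := (cR g2).1 (Or.inr ⟨vb, vc⟩)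
    have fcd : R c d := (cR g3).1 (Or.inr ⟨vc, vd⟩)
    have fac : B a c := (cB g4).1 (Or.inr ⟨va, vc⟩)
    have fad : B a d := (cB g5).1 (Or.inr ⟨va, vd⟩)
    have fbd : B b d := (cB g6).1 (Or.inr ⟨vb, vd⟩)
    exact hg a b c d v ⟨fab, fbc, fcd, fac, fad, fbd⟩ (by assumption) (by assumption) (by assumption) (by assumption) (by assumption) (Or.inl ⟨va, vb, vc, vd⟩)

theorem propSame {p q p' q' i j k : Prop} (hjk : j ↔ k)
    (hh : (((p ∧ (i ↔ j)) ∨ (q ∧ ¬ (i ↔ j))) ∧ ((p' ∧ (i ↔ k)) ∨ (q' ∧ ¬ (i ↔ k)))) ∨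
      (((q ∧ (i ↔ j)) ∨ (p ∧ ¬ (i ↔ j))) ∧ ((q' ∧ (i ↔ k)) ∨ (p' ∧ ¬ (i ↔ k))))) :
    (p ∧ p') ∨ (q ∧ q') := by
  rw [← hjk] at hh
  by_cases hij : (i ↔ j)
  · simp only [hij, and_true, not_true_eq_false, and_false, or_false] at hh
    exact hh
  · simp only [hij, and_true, not_false_eq_true, and_false, false_or] at hh
    exact hh.symm

theorem propDiff {p q p' q' i j k : Prop} (hjk : ¬ (j ↔ k))
    (hh : (((p ∧ (i ↔ j)) ∨ (q ∧ ¬ (i ↔ j))) ∧ ((p' ∧ (i ↔ k)) ∨ (q' ∧ ¬ (i ↔ k)))) ∨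
      (((q ∧ (i ↔ j)) ∨ (p ∧ ¬ (i ↔ j))) ∧ ((q' ∧ (i ↔ k)) ∨ (p' ∧ ¬ (i ↔ k))))) :
    (p ∧ q') ∨ (q ∧ p') := by
  by_cases hij : (i ↔ j)
  · have hik : ¬ (i ↔ k) := fun e => hjk (hij.symm.trans e)
    simp only [hij, and_true, not_true_eq_false, and_false, or_false] at hh
    rw [hij] at hik
    simp only [hik, and_true, not_false_eq_true, and_false, false_or] at hh
    exact hh
  · have hik : (i ↔ k) := by
      by_cases hi : i <;> by_cases hj : j <;> by_cases hk : k <;> simp_all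
    simp only [hij, and_true, not_false_eq_true, and_false, false_or] at hh
    simp only [hik, and_true, not_true_eq_false, and_false, or_false] at hh
    exact hh.symm

/-- The core theorem. -/
theorem core (h : TC R B) (h5 : NoC5 R B) (hb : NoBull R B) {S : Finset V} (hS : Good R B S)
    (hprime : ∀ K ⊆ S, 2 ≤ K.card → K ≠ S →
      ∃ a ∈ S, a ∉ K ∧ (∃ k ∈ K, R a k) ∧ (∃ k ∈ K, B a k)) : False := by
  classical
  have hS3 : 3 ≤ S.card := by
    by_contra hlt
    have h2 : S.card = 2 := by have := hS.1; omega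
    obtain ⟨x, y, hxy, rfl⟩ := Finset.card_eq_two.1 h2
    have hx : x ∈ ({x, y} : Finset V) := by simp
    have hy : y ∈ ({x, y} : Finset V) := by simp
    rcases h.total hxy with h' | h'
    · obtain ⟨z, hz, z1, z2⟩ := (hS.2 x hx y hy).2 h'
      simp only [mem_insert, mem_singleton] at hz
      rcases hz with rfl | rfl
      · exact h.irrB z1
      · exact h.irrB z2
    · obtain ⟨z, hz, z1, z2⟩ := (hS.2 x hx y hy).1 h'
      simp only [mem_insert, mem_singleton] at hz
      rcases hz with rfl | rfl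
      · exact h.irrR z1
      · exact h.irrR z2
  obtain ⟨v, hv⟩ : S.Nonempty := by rw [← Finset.card_pos]; omega
  have hcard : 2 ≤ (S.erase v).card := by rw [card_erase_of_mem hv]; omega
  rcases pairOrP4 (h.switch v) hcard with ⟨x, hx, y, hy, hxy, htw⟩ | ⟨a, ha, b, hb1, c, hc, d, hd, hP⟩
  · obtain ⟨hxv, hxS⟩ := mem_erase.1 hx
    obtain ⟨hyv, hyS⟩ := mem_erase.1 hy
    have tot : ∀ s, s ≠ v → R v s ∨ B v s := fun s hs => h.total (Ne.symm hs)
    by_cases hi : (R v x ↔ R v y)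
    · -- twins
      have hne : ({x, y} : Finset V) ≠ S := by
        intro e
        have : ({x, y} : Finset V).card = 2 := Finset.card_pair hxy
        rw [e] at this
        omega
      obtain ⟨a, haS, haK, ⟨k1, hk1, hk1'⟩, k2, hk2, hk2'⟩ := hprime {x, y}
        (by
          intro s hs
          simp only [mem_insert, mem_singleton] at hs
          rcases hs with rfl | rfl <;> assumption) (by rw [Finset.card_pair hxy]) hne
      simp only [mem_insert, mem_singleton] at haK hk1 hk2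
      push Not at haK
      have hax : a ≠ x := haK.1
      have hay : a ≠ y := haK.2
      -- a is homogeneous to x, y
      have hom : (R a x ∧ R a y) ∨ (B a x ∧ B a y) := by
        by_cases hav : a = v
        · subst hav
          rcases h.total hax with h1 | h1
          · exact Or.inl ⟨h1, hi.1 h1⟩
          · refine Or.inr ⟨h1, ?_⟩
            rcases h.total hay with h2 | h2
            · exact (h.excl (hi.2 h2) h1).elim
            · exact h2
        · exact propSame hi (htw a (mem_erase.2 ⟨hav, haS⟩) hax hay)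
      rcases hom with ⟨u1, u2⟩ | ⟨u1, u2⟩
      · rcases hk2 with rfl | rfl
        · exact h.excl u1 hk2'
        · exact h.excl u2 hk2'
      · rcases hk1 with rfl | rfl
        · exact h.excl hk1' u1
        · exact h.excl hk1' u2
    · -- antitwins
      have anti : ∀ s ∈ S, s ≠ x → s ≠ y → (R s x ∧ B s y) ∨ (B s x ∧ R s y) := by
        intro s hs hsx hsy
        by_cases hsv : s = v
        · subst hsv
          rcases h.total hsx with h1 | h1
          · refine Or.inl ⟨h1, ?_⟩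
            rcases h.total hsy with h2 | h2
            · exact (hi ⟨fun _ => h2, fun _ => h1⟩).elim
            · exact h2
          · refine Or.inr ⟨h1, ?_⟩
            rcases h.total hsy with h2 | h2
            · exact h2
            · exact (hi ⟨fun h3 => (h.excl h3 h1).elim, fun h3 => (h.excl h3 h2).elim⟩).elim
        · exact propDiff hi (htw s (mem_erase.2 ⟨hsv, hs⟩) hsx hsy)
      rcases h.total hxy with h' | h'
      · obtain ⟨z, hz, z1, z2⟩ := (hS.2 x hxS y hyS).2 h'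
        have zx : z ≠ x := fun e => h.irrB (e ▸ z1)
        have zy : z ≠ y := fun e => h.irrB (e ▸ z2)
        rcases anti z hz zx zy with ⟨u1, u2⟩ | ⟨u1, u2⟩
        · exact h.excl u1 z1
        · exact h.excl u2 z2
      · obtain ⟨z, hz, z1, z2⟩ := (hS.2 x hxS y hyS).1 h'
        have zx : z ≠ x := fun e => h.irrR (e ▸ z1)
        have zy : z ≠ y := fun e => h.irrR (e ▸ z2)
        rcases anti z hz zx zy with ⟨u1, u2⟩ | ⟨u1, u2⟩
        · exact h.excl z2 u2
        · exact h.excl z1 u1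
  · obtain ⟨hav, haS⟩ := mem_erase.1 ha
    obtain ⟨hbv, hbS⟩ := mem_erase.1 hb1
    obtain ⟨hcv, hcS⟩ := mem_erase.1 hc
    obtain ⟨hdv, hdS⟩ := mem_erase.1 hd
    exact switchP4 h h5 hb (S := S)
      (fun a b c d v hp m1 m2 m3 m4 mv hc => noGem h h5 hb hS hprime hp m1 m2 m3 m4 mv hc)
      hv haS hbS hcS hdS hav.symm hbv.symm hcv.symm hdv.symm hP

/-- A minimal good set has no nontrivial module. -/
theorem noGood (h : TC R B) (h5 : NoC5 R B) (hb : NoBull R B) :
    ∀ (n : ℕ) (S : Finset V), S.card = n → ¬ Good R B S := by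
  intro n
  induction n using Nat.strong_induction_on with
  | _ n ih =>
    intro S hSn hS
    refine core h h5 hb hS ?_
    intro K hKS hK2 hKne
    by_contra hcon
    push Not at hcon
    have hmod : ∀ s ∈ S, s ∉ K → (∀ k ∈ K, R s k) ∨ (∀ k ∈ K, B s k) := by
      intro s hs hsK
      by_cases hex : ∃ k ∈ K, R s k
      · left
        intro k hk
        rcases h.total (x := s) (y := k) (fun e => hsK (e ▸ hk)) with h' | h'
        · exact h'
        · exact (hcon s hs hsK hex k hk h').elim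
      · right
        push Not at hex
        intro k hk
        exact (h.total (x := s) (y := k) (fun e => hsK (e ▸ hk))).resolve_left (hex k hk)
    obtain ⟨k, hk⟩ : K.Nonempty := by rw [← Finset.card_pos]; omega
    have hSK : (S \ K).Nonempty := by
      by_contra hemp
      apply hKne
      apply Finset.Subset.antisymm hKS
      intro x hx
      by_contra hxK
      exact hemp ⟨x, mem_sdiff.2 ⟨hx, hxK⟩⟩
    have hkS : k ∉ S \ K := fun hh => (mem_sdiff.1 hh).2 hk
    have hc1 : (S \ K).card + K.card = S.card := Finset.card_sdiff_add_card_eq_card hKS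
    have hc2 : (insert k (S \ K)).card = (S \ K).card + 1 := card_insert_of_notMem hkS
    have hpos := Finset.card_pos.2 hSK
    -- representative
    have rep : ∀ z ∈ S, ∃ z' ∈ insert k (S \ K), ∀ w ∈ S, w ∉ K →
        (R z w → R z' w) ∧ (B z w → B z' w) := by
      intro z hz
      by_cases hzK : z ∈ K
      · refine ⟨k, mem_insert_self _ _, ?_⟩
        intro w hw hwK
        rcases hmod w hw hwK with h' | h'
        · exact ⟨fun _ => h.symmR (h' k hk), fun hb => (h.excl (h.symmR (h' z hzK)) hb).elim⟩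
        · exact ⟨fun hb => (h.excl hb (h.symmB (h' z hzK))).elim, fun _ => h.symmB (h' k hk)⟩
      · exact ⟨z, mem_insert_of_mem (mem_sdiff.2 ⟨hz, hzK⟩), fun w _ _ => ⟨id, id⟩⟩
    have hsub : ∀ x ∈ insert k (S \ K), x ∈ S := by
      intro x hx
      rcases mem_insert.1 hx with rfl | hx
      · exact hKS hk
      · exact (mem_sdiff.1 hx).1
    refine ih (insert k (S \ K)).card (by omega) (insert k (S \ K)) rfl ⟨by omega, ?_⟩
    intro x hx y hy
    have hxS := hsub x hx
    have hyS := hsub y hy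
    have hKk : ∀ x ∈ insert k (S \ K), x ∈ K → x = k := by
      intro x hx hxK
      rcases mem_insert.1 hx with h' | h'
      · exact h'
      · exact absurd hxK (mem_sdiff.1 h').2
    constructor
    · intro hxy
      obtain ⟨z, hz, z1, z2⟩ := (hS.2 x hxS y hyS).1 hxy
      by_cases hzK : z ∈ K
      · by_cases hxK : x ∈ K
        · exfalso
          have hyK : y ∉ K := by
            intro hyK
            have e1 := hKk x hx hxK
            have e2 := hKk y hy hyK
            rw [e1, e2] at hxy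
            exact h.irrB hxy
          rcases hmod y hyS hyK with h' | h'
          · exact h.excl (h' x hxK) (h.symmB hxy)
          · exact h.excl (h.symmR z2) (h' z hzK)
        · by_cases hyK : y ∈ K
          · exfalso
            rcases hmod x hxS hxK with h' | h'
            · exact h.excl (h' y hyK) hxy
            · exact h.excl (h.symmR z1) (h' z hzK)
          · obtain ⟨z', hz', hr⟩ := rep z hz
            exact ⟨z', hz', (hr x hxS hxK).1 z1, (hr y hyS hyK).1 z2⟩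
      · exact ⟨z, mem_insert_of_mem (mem_sdiff.2 ⟨hz, hzK⟩), z1, z2⟩
    · intro hxy
      obtain ⟨z, hz, z1, z2⟩ := (hS.2 x hxS y hyS).2 hxy
      by_cases hzK : z ∈ K
      · by_cases hxK : x ∈ K
        · exfalso
          have hyK : y ∉ K := by
            intro hyK
            have e1 := hKk x hx hxK
            have e2 := hKk y hy hyK
            rw [e1, e2] at hxy
            exact h.irrR hxy
          rcases hmod y hyS hyK with h' | h'
          · exact h.excl (h' z hzK) (h.symmB z2)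
          · exact h.excl (h.symmR hxy) (h' x hxK)
        · by_cases hyK : y ∈ K
          · exfalso
            rcases hmod x hxS hxK with h' | h'
            · exact h.excl (h' z hzK) (h.symmB z1)
            · exact h.excl hxy (h' y hyK)
          · obtain ⟨z', hz', hr⟩ := rep z hz
            exact ⟨z', hz', (hr x hxS hxK).2 z1, (hr y hyS hyK).2 z2⟩
      · exact ⟨z, mem_insert_of_mem (mem_sdiff.2 ⟨hz, hzK⟩), z1, z2⟩

end

/-- The bull: vertices `a,b,c,d,e = 0,1,2,3,4`, edges `ab, bc, ca, ad, be`. -/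
def bull : SimpleGraph (Fin 5) :=
  SimpleGraph.fromEdgeSet {s(0, 1), s(1, 2), s(2, 0), s(0, 3), s(1, 4)}

instance : DecidableRel bull.Adj := by
  unfold bull
  infer_instance

/-- `H` is isomorphic to its complement. -/
def SelfComplementary {W : Type*} (H : SimpleGraph W) : Prop := Nonempty (H ≃g Hᶜ)

theorem selfCompl_cycle : SelfComplementary (SimpleGraph.cycleGraph 5) := by
  refine ⟨⟨⟨![0, 2, 4, 1, 3], ![0, 3, 1, 4, 2], by decide, by decide⟩, ?_⟩⟩
  intro a b
  revert a b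
  decide

theorem selfCompl_bull : SelfComplementary bull := by
  refine ⟨⟨⟨![3, 4, 2, 1, 0], ![4, 3, 2, 0, 1], by decide, by decide⟩, ?_⟩⟩
  intro a b
  revert a b
  decide

theorem SelfComplementary.of_iso {W W' : Type*} {H : SimpleGraph W} {H' : SimpleGraph W'}
    (e : H ≃g H') (h : SelfComplementary H') : SelfComplementary H := by
  obtain ⟨f⟩ := h
  refine ⟨(e.trans f).trans ⟨e.symm.toEquiv, ?_⟩⟩
  intro a b
  simp only [SimpleGraph.compl_adj]
  have h1 : H.Adj (e.symm.toEquiv a) (e.symm.toEquiv b) ↔ H'.Adj a b := e.symm.map_adj_iff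
  rw [h1, ne_eq, ne_eq, e.symm.toEquiv.injective.eq_iff]

theorem fromEmb {V : Type*} [Fintype V] {G : SimpleGraph V} {H : SimpleGraph (Fin 5)}
    (e : H ↪g G) : ∃ S : Finset V, S.card = 5 ∧ Nonempty (G.induce (S : Set V) ≃g H) := by
  refine ⟨Finset.univ.map e.toEmbedding, by simp, ?_⟩
  have hS : ((Finset.univ.map e.toEmbedding : Finset V) : Set V) = Set.range e := by
    ext x
    simp
  rw [hS]
  exact ⟨e.isoInduceRange.symm⟩

/-- nonadjacent and distinct -/
def NA {V : Type*} (G : SimpleGraph V) (x y : V) : Prop := x ≠ y ∧ ¬ G.Adj x y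

theorem tcOf {V : Type*} (G : SimpleGraph V) : TC G.Adj (NA G) where
  symmR := fun h => h.symm
  symmB := fun h => ⟨h.1.symm, fun h' => h.2 h'.symm⟩
  excl := fun h h' => h'.2 h
  irrR := fun h => G.loopless.irrefl _ h
  irrB := fun h => h.1 rfl
  total := fun {x y} hxy => by
    by_cases h : G.Adj x y
    · exact Or.inl h
    · exact Or.inr ⟨hxy, h⟩

/-- An injective-on-pairs criterion for embeddings of graphs on five vertices. -/
theorem embOf {V : Type*} {G : SimpleGraph V} {H : SimpleGraph (Fin 5)} (f : Fin 5 → V)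
    (h : ∀ i j, i < j → ((H.Adj i j ∧ G.Adj (f i) (f j)) ∨ (¬ H.Adj i j ∧ NA G (f i) (f j)))) :
    Nonempty (H ↪g G) := by
  have hne : ∀ i j, i < j → f i ≠ f j := by
    intro i j hij e
    rcases h i j hij with ⟨-, h2⟩ | ⟨-, h2⟩
    · rw [e] at h2
      exact G.loopless.irrefl _ h2
    · exact h2.1 e
  have hinj : Function.Injective f := by
    intro i j e
    rcases lt_trichotomy i j with hij | hij | hij
    · exact (hne i j hij e).elim
    · exact hij
    · exact (hne j i hij e.symm).elim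
  refine ⟨⟨⟨f, hinj⟩, ?_⟩⟩
  intro i j
  change G.Adj (f i) (f j) ↔ H.Adj i j
  rcases lt_trichotomy i j with hij | hij | hij
  · rcases h i j hij with ⟨h1, h2⟩ | ⟨h1, h2⟩
    · exact ⟨fun _ => h1, fun _ => h2⟩
    · exact ⟨fun h3 => (h2.2 h3).elim, fun h3 => (h1 h3).elim⟩
  · subst hij
    exact ⟨fun h3 => (G.loopless.irrefl _ h3).elim, fun h3 => (H.loopless.irrefl _ h3).elim⟩
  · rcases h j i hij with ⟨h1, h2⟩ | ⟨h1, h2⟩
    · exact ⟨fun _ => h1.symm, fun _ => h2.symm⟩
    · exact ⟨fun h3 => (h2.2 h3.symm).elim, fun h3 => (h1 h3.symm).elim⟩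

theorem cycEmb {V : Type*} {G : SimpleGraph V} {a b c d e : V} (h1 : G.Adj a b)
    (h2 : G.Adj b c) (h3 : G.Adj c d) (h4 : G.Adj d e) (h5 : G.Adj e a)
    (g1 : NA G a c) (g2 : NA G a d) (g3 : NA G b d) (g4 : NA G b e) (g5 : NA G c e) :
    Nonempty (SimpleGraph.cycleGraph 5 ↪g G) := by
  refine embOf ![a, b, c, d, e] ?_
  intro i j hij
  fin_cases i <;> fin_cases j <;> first | exact absurd hij (by decide) | skip
  · exact Or.inl ⟨by decide, h1⟩
  · exact Or.inr ⟨by decide, g1⟩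
  · exact Or.inr ⟨by decide, g2⟩
  · exact Or.inl ⟨by decide, h5.symm⟩
  · exact Or.inl ⟨by decide, h2⟩
  · exact Or.inr ⟨by decide, g3⟩
  · exact Or.inr ⟨by decide, g4⟩
  · exact Or.inl ⟨by decide, h3⟩
  · exact Or.inr ⟨by decide, g5⟩
  · exact Or.inl ⟨by decide, h4⟩

theorem bullEmb {V : Type*} {G : SimpleGraph V} {a b c d e : V} (h1 : G.Adj a b)
    (h2 : G.Adj b c) (h3 : G.Adj c a) (h4 : G.Adj a d) (h5 : G.Adj b e)
    (g1 : NA G d b) (g2 : NA G d c) (g3 : NA G d e) (g4 : NA G e a) (g5 : NA G e c) :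
    Nonempty (bull ↪g G) := by
  have hs : ∀ {x y}, NA G x y → NA G y x := (tcOf G).symmB
  refine embOf ![a, b, c, d, e] ?_
  intro i j hij
  fin_cases i <;> fin_cases j <;> first | exact absurd hij (by decide) | skip
  · exact Or.inl ⟨by decide, h1⟩
  · exact Or.inl ⟨by decide, h3.symm⟩
  · exact Or.inl ⟨by decide, h4⟩
  · exact Or.inr ⟨by decide, hs g4⟩
  · exact Or.inl ⟨by decide, h2⟩
  · exact Or.inr ⟨by decide, hs g1⟩
  · exact Or.inl ⟨by decide, h5⟩
  · exact Or.inr ⟨by decide, hs g2⟩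
  · exact Or.inr ⟨by decide, hs g5⟩
  · exact Or.inr ⟨by decide, g3⟩

/-- **Structure theorem.** A finite graph on at least two vertices in which any two distinct
nonadjacent vertices have a common neighbour and any two adjacent vertices have a common
non-neighbour has an induced 5-cycle or an induced bull. -/
theorem structureThm {V : Type*} [Fintype V] (G : SimpleGraph V) (h2 : 2 ≤ Fintype.card V)
    (hd : ∀ x y, x ≠ y → ¬ G.Adj x y → ∃ z, G.Adj z x ∧ G.Adj z y)
    (hc : ∀ x y, G.Adj x y → ∃ z, z ≠ x ∧ z ≠ y ∧ ¬ G.Adj z x ∧ ¬ G.Adj z y) :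
    Nonempty (SimpleGraph.cycleGraph 5 ↪g G) ∨ Nonempty (bull ↪g G) := by
  classical
  by_contra hcon
  push Not at hcon
  obtain ⟨hn5, hnb⟩ := hcon
  have h5 : NoC5 G.Adj (NA G) := by
    intro a b c d e h1 h2 h3 h4 h5 g1 g2 g3 g4 g5
    exact (not_nonempty_iff.2 hn5) (cycEmb h1 h2 h3 h4 h5 g1 g2 g3 g4 g5)
  have hb : NoBull G.Adj (NA G) := by
    intro a b c d e h1 h2 h3 h4 h5 g1 g2 g3 g4 g5
    exact (not_nonempty_iff.2 hnb) (bullEmb h1 h2 h3 h4 h5 g1 g2 g3 g4 g5)
  refine noGood (tcOf G) h5 hb _ (Finset.univ : Finset V) rfl ⟨by simpa using h2, ?_⟩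
  intro x _ y _
  constructor
  · intro hxy
    obtain ⟨z, z1, z2⟩ := hd x y hxy.1 hxy.2
    exact ⟨z, Finset.mem_univ _, z1, z2⟩
  · intro hxy
    obtain ⟨z, z1, z2, z3, z4⟩ := hc x y hxy
    exact ⟨z, Finset.mem_univ _, ⟨z1, z3⟩, ⟨z2, z4⟩⟩

/-- For every positive integer `k`, every `k`-regular graph on `2k+1` vertices has a set of five
vertices inducing a self-complementary graph, i.e. a 5-cycle or a bull. -/
theorem result {V : Type*} [Fintype V] (G : SimpleGraph V) [DecidableRel G.Adj] (k : ℕ)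
    (hk : 0 < k) (hcard : Fintype.card V = 2 * k + 1) (hreg : G.IsRegularOfDegree k) :
    ∃ S : Finset V, S.card = 5 ∧ SelfComplementary (G.induce (S : Set V)) ∧
      (Nonempty (G.induce (S : Set V) ≃g SimpleGraph.cycleGraph 5) ∨
        Nonempty (G.induce (S : Set V) ≃g bull)) := by
  classical
  have key := structureThm G (by omega)
    (by
      intro x y hxy hn
      by_contra hcon
      push Not at hcon
      have hdis : Disjoint (G.neighborFinset x) (G.neighborFinset y) := by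
        rw [Finset.disjoint_left]
        intro z hz hz'
        rw [SimpleGraph.mem_neighborFinset] at hz hz'
        exact hcon z hz.symm hz'.symm
      have hsub : G.neighborFinset x ∪ G.neighborFinset y ⊆ (Finset.univ.erase x).erase y := by
        intro z hz
        simp only [Finset.mem_union, SimpleGraph.mem_neighborFinset] at hz
        simp only [Finset.mem_erase, Finset.mem_univ, and_true]
        rcases hz with hz | hz
        · exact ⟨fun e => hn (e ▸ hz), hz.ne'⟩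
        · exact ⟨hz.ne', fun e => hn (e ▸ hz).symm⟩
      have h1 := Finset.card_le_card hsub
      rw [Finset.card_union_of_disjoint hdis, SimpleGraph.card_neighborFinset_eq_degree,
        SimpleGraph.card_neighborFinset_eq_degree, hreg.degree_eq, hreg.degree_eq,
        Finset.card_erase_of_mem (by simp [hxy.symm]), Finset.card_erase_of_mem (by simp),
        Finset.card_univ, hcard] at h1
      omega)
    (by
      intro x y hxy
      by_contra hcon
      push Not at hcon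
      have hsub : (Finset.univ : Finset V) ⊆ G.neighborFinset x ∪ G.neighborFinset y := by
        intro z _
        simp only [Finset.mem_union, SimpleGraph.mem_neighborFinset]
        by_cases hzx : z = x
        · right; rw [hzx]; exact hxy.symm
        · by_cases hzy : z = y
          · left; rw [hzy]; exact hxy
          · by_cases hz : G.Adj z x
            · left; exact hz.symm
            · right; exact (hcon z hzx hzy hz).symm
      have h1 := (Finset.card_le_card hsub).trans (Finset.card_union_le _ _)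
      rw [SimpleGraph.card_neighborFinset_eq_degree,
        SimpleGraph.card_neighborFinset_eq_degree, hreg.degree_eq, hreg.degree_eq,
        Finset.card_univ, hcard] at h1
      omega)
  rcases key with ⟨⟨e⟩⟩ | ⟨⟨e⟩⟩
  · obtain ⟨S, hS, ⟨f⟩⟩ := fromEmb e
    exact ⟨S, hS, selfCompl_cycle.of_iso f, Or.inl ⟨f⟩⟩
  · obtain ⟨S, hS, ⟨f⟩⟩ := fromEmb e
    exact ⟨S, hS, selfCompl_bull.of_iso f, Or.inr ⟨f⟩⟩

end Pool.Agent.Results.MP_aa43e9_co.InducedC5OrBull
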